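import Pool.Agent.H15.F8.Targets

/-!
# Project MP_f8d35d_nt: module L1 (elements close to `1` are cubes, by Galois descent)
-/

namespace F8

theorem norm_three_eq_one (p : ℕ) [Fact p.Prime] (hp : p ≠ 3) : ‖(3 : Om p)‖ = 1 := by
  have h1 : ‖((3 : ℕ) : ℚ_[p])‖ = 1 := by
    rw [Padic.norm_natCast_eq_one_iff]
    exact (Nat.coprime_primes (Fact.out : p.Prime) Nat.prime_three).2 hp
  have h2 := PadicAlgCl.norm_extends p ((3 : ℕ) : ℚ_[p])
  rw [h1] at h2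
  have h3 : ((((3 : ℕ) : ℚ_[p]) : PadicAlgCl p)) = (3 : PadicAlgCl p) := by
    rw [map_natCast]; norm_num
  rw [h3] at h2
  exact h2

theorem ultra3 {A : Type*} [NormedField A] [IsUltrametricDist A] (a b : A) (ha : ‖a‖ < 1)
    (hb : ‖b‖ < 1) : ‖3 * a + 3 * b + a ^ 2 + a * b + b ^ 2‖ < 1 := by
  have h3 : ‖(3 : A)‖ ≤ 1 := by
    have := IsUltrametricDist.norm_natCast_le_one A 3
    simpa using this
  have add : ∀ x y : A, ‖x‖ < 1 → ‖y‖ < 1 → ‖x + y‖ < 1 := fun x y hx hy =>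
    (IsUltrametricDist.norm_add_le_max x y).trans_lt (max_lt hx hy)
  have mul : ∀ x y : A, ‖x‖ ≤ 1 → ‖y‖ < 1 → ‖x * y‖ < 1 := fun x y hx hy => by
    rw [norm_mul]
    exact (mul_le_of_le_one_left (norm_nonneg _) hx).trans_lt hy
  refine add _ _ (add _ _ (add _ _ (add _ _ (mul _ _ h3 ha) (mul _ _ h3 hb)) ?_)
    (mul _ _ ha.le hb)) ?_
  · rw [pow_two]; exact mul _ _ ha.le ha
  · rw [pow_two]; exact mul _ _ hb.le hb

theorem cubeNearStmt : CubeNearStmt := by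
  intro p _ hp F u hu hu1
  -- a cube root of unity and a cube root of `u`
  obtain ⟨w, hw⟩ : ∃ w : Om p, w ^ 2 + w + 1 = 0 := by
    have h : (Polynomial.X ^ 2 + Polynomial.X + 1 : Polynomial (Om p)).degree ≠ 0 := by
      have : (Polynomial.X ^ 2 + Polynomial.X + 1 : Polynomial (Om p)).degree = 2 := by
        compute_degree!
      rw [this]; decide
    obtain ⟨w, hw⟩ := IsAlgClosed.exists_root _ h
    exact ⟨w, by simpa [Polynomial.IsRoot] using hw⟩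
  obtain ⟨y₀, hy₀⟩ : ∃ y : Om p, y ^ 3 = u := IsAlgClosed.exists_pow_nat_eq u (by norm_num)
  obtain ⟨y, hy, hy1⟩ : ∃ y : Om p, y ^ 3 = u ∧ ‖y - 1‖ < 1 := by
    by_contra hcon
    push Not at hcon
    have h1 := hcon y₀ hy₀
    have h2 := hcon (w * y₀) (by linear_combination hy₀ + (w - 1) * y₀ ^ 3 * hw)
    have h3 := hcon (w ^ 2 * y₀)
      (by linear_combination hy₀ + (w ^ 3 + 1) * (w - 1) * y₀ ^ 3 * hw)
    have h4 : ‖u - 1‖ = ‖y₀ - 1‖ * ‖w * y₀ - 1‖ * ‖w ^ 2 * y₀ - 1‖ := by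
      rw [← norm_mul, ← norm_mul]
      congr 1
      rw [← hy₀]
      linear_combination ((1 - w) * y₀ ^ 3 + (w - 1) * y₀ ^ 2 - y₀) * hw + y₀ ^ 2 * hw
    rw [h4] at hu1
    have h5 : 1 ≤ ‖y₀ - 1‖ * ‖w * y₀ - 1‖ := one_le_mul_of_one_le_of_one_le h1 h2
    have h6 : 1 ≤ ‖y₀ - 1‖ * ‖w * y₀ - 1‖ * ‖w ^ 2 * y₀ - 1‖ :=
      one_le_mul_of_one_le_of_one_le h5 h3
    exact absurd hu1 (not_lt.2 h6)
  refine ⟨y, ?_, hy⟩
  rw [mem_iff_fixed]
  intro g hg
  by_contra hne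
  have hgy3 : (g y) ^ 3 = y ^ 3 := by
    rw [← map_pow, hy, hg u hu]
  have hgy1 : ‖g y - 1‖ < 1 := by
    have := norm_gal g (y - 1)
    rw [map_sub, map_one] at this
    rw [this]; exact hy1
  have h0 : (g y) ^ 2 + g y * y + y ^ 2 = 0 := by
    have : (g y - y) * ((g y) ^ 2 + g y * y + y ^ 2) = 0 := by linear_combination hgy3
    rcases mul_eq_zero.1 this with h | h
    · exact absurd (sub_eq_zero.1 h) hne
    · exact h
  have h1 := ultra3 (g y - 1) (y - 1) hgy1 hy1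
  have h2 : (-3 : Om p) = 3 * (g y - 1) + 3 * (y - 1) + (g y - 1) ^ 2 + (g y - 1) * (y - 1) +
      (y - 1) ^ 2 := by
    linear_combination -h0
  rw [← h2, norm_neg, norm_three_eq_one p hp] at h1
  exact lt_irrefl _ h1

end F8
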