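import Pool.Agent.H15.F8.Targets

/-!
# Project MP_f8d35d_nt: module L2 (dominant term in a totally ramified cubic extension)
-/

namespace F8

/-- the `F`-span of `1, π, π²` is a subalgebra -/
def spanThree {k L : Type*} [Field k] [Field L] [Algebra k L] (F : IntermediateField k L) (π : L)
    (h : ∃ a ∈ F, ∃ b ∈ F, ∃ c ∈ F, π ^ 3 = a + b * π + c * π ^ 2) : Subalgebra k L where
  carrier := {x | ∃ a ∈ F, ∃ b ∈ F, ∃ c ∈ F, x = a + b * π + c * π ^ 2}
  mul_mem' := by
    rintro x y ⟨a, ha, b, hb, c, hc, rfl⟩ ⟨a', ha', b', hb', c', hc', rfl⟩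
    obtain ⟨p, hp, q, hq, r, hr, h3⟩ := h
    have h4 : π ^ 4 = r * p + (p + r * q) * π + (q + r * r) * π ^ 2 := by
      linear_combination (π + r) * h3
    refine ⟨a * a' + (b * c' + c * b') * p + c * c' * (r * p), ?_,
      a * b' + b * a' + (b * c' + c * b') * q + c * c' * (p + r * q), ?_,
      a * c' + b * b' + c * a' + (b * c' + c * b') * r + c * c' * (q + r * r), ?_, ?_⟩
    · exact F.add_mem (F.add_mem (F.mul_mem ha ha')
        (F.mul_mem (F.add_mem (F.mul_mem hb hc') (F.mul_mem hc hb')) hp))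
        (F.mul_mem (F.mul_mem hc hc') (F.mul_mem hr hp))
    · exact F.add_mem (F.add_mem (F.add_mem (F.mul_mem ha hb') (F.mul_mem hb ha'))
        (F.mul_mem (F.add_mem (F.mul_mem hb hc') (F.mul_mem hc hb')) hq))
        (F.mul_mem (F.mul_mem hc hc') (F.add_mem hp (F.mul_mem hr hq)))
    · exact F.add_mem (F.add_mem (F.add_mem (F.add_mem (F.mul_mem ha hc') (F.mul_mem hb hb'))
        (F.mul_mem hc ha'))
        (F.mul_mem (F.add_mem (F.mul_mem hb hc') (F.mul_mem hc hb')) hr))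
        (F.mul_mem (F.mul_mem hc hc') (F.add_mem hq (F.mul_mem hr hr)))
    · linear_combination (b * c' + c * b') * h3 + c * c' * h4
  add_mem' := by
    rintro x y ⟨a, ha, b, hb, c, hc, rfl⟩ ⟨a', ha', b', hb', c', hc', rfl⟩
    exact ⟨a + a', F.add_mem ha ha', b + b', F.add_mem hb hb', c + c', F.add_mem hc hc', by ring⟩
  algebraMap_mem' := fun r =>
    ⟨algebraMap k L r, F.algebraMap_mem r, 0, F.zero_mem, 0, F.zero_mem, by ring⟩

theorem mem_span_three {k L : Type*} [Field k] [Field L] [Algebra k L] [IsGalois k L]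
    (F : IntermediateField k L) (π : L)
    (h : ∃ a ∈ F, ∃ b ∈ F, ∃ c ∈ F, π ^ 3 = a + b * π + c * π ^ 2)
    (x : L) (hx : ∀ g : L ≃ₐ[k] L, (∀ a ∈ F, g a = a) → g π = π → g x = x) :
    ∃ a ∈ F, ∃ b ∈ F, ∃ c ∈ F, x = a + b * π + c * π ^ 2 := by
  let S : Subalgebra k L := spanThree F π h
  let S' : IntermediateField k L := S.toIntermediateField (fun y hy =>
    S.inv_mem_of_algebraic (x := ⟨y, hy⟩) (Algebra.IsAlgebraic.isAlgebraic y))
  have hS : ∀ y, y ∈ S' ↔ ∃ a ∈ F, ∃ b ∈ F, ∃ c ∈ F, y = a + b * π + c * π ^ 2 :=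
    fun y => Iff.rfl
  rw [← hS, mem_iff_fixed]
  intro g hg
  refine hx g (fun a ha => hg a ?_) (hg π ?_)
  · exact (hS a).2 ⟨a, ha, 0, F.zero_mem, 0, F.zero_mem, by ring⟩
  · exact (hS π).2 ⟨0, F.zero_mem, 1, F.one_mem, 0, F.zero_mem, by ring⟩

theorem dom_aux {A : Type*} [NormedField A] [IsUltrametricDist A] (u v w : A) (hv : ‖v‖ < ‖u‖)
    (hw : ‖w‖ < ‖u‖) : ‖v + w‖ < ‖u + (v + w)‖ := by
  have h1 : ‖v + w‖ < ‖u‖ := (IsUltrametricDist.norm_add_le_max v w).trans_lt (max_lt hv hw)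
  have h2 : ‖u‖ ≤ max ‖u + (v + w)‖ ‖v + w‖ := by
    have := IsUltrametricDist.norm_add_le_max (u + (v + w)) (-(v + w))
    rw [norm_neg, add_neg_cancel_right] at this
    exact this
  rcases le_max_iff.1 h2 with h3 | h3
  · exact h1.trans_le h3
  · exact absurd h1 (not_lt.2 h3)

theorem domStmt : DomStmt := by
  intro p _ F π hπ h3 hn1 hn2 x hx hfix
  obtain ⟨a, ha, b, hb, c, hc, hxe⟩ := mem_span_three F π h3 x hfix
  have hp0 : ‖π‖ ≠ 0 := norm_ne_zero_iff.2 hπ
  -- the three terms have different norms when they are not zero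
  have hab : a ≠ 0 ∨ b ≠ 0 → ‖a‖ ≠ ‖b * π‖ := by
    intro h0 he
    rw [norm_mul] at he
    by_cases hb0 : b = 0
    · rw [hb0, norm_zero, zero_mul, norm_eq_zero] at he
      rcases h0 with h0 | h0
      · exact h0 he
      · exact h0 hb0
    · apply hn1 (a / b) (F.div_mem ha hb)
      rw [norm_div, he, mul_comm, mul_div_assoc, div_self (norm_ne_zero_iff.2 hb0), mul_one]
  have hac : a ≠ 0 ∨ c ≠ 0 → ‖a‖ ≠ ‖c * π ^ 2‖ := by
    intro h0 he
    rw [norm_mul, norm_pow] at he
    by_cases hc0 : c = 0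
    · rw [hc0, norm_zero, zero_mul, norm_eq_zero] at he
      rcases h0 with h0 | h0
      · exact h0 he
      · exact h0 hc0
    · apply hn2 (a / c) (F.div_mem ha hc)
      rw [norm_div, he, mul_comm, mul_div_assoc, div_self (norm_ne_zero_iff.2 hc0), mul_one]
  have hbc : b ≠ 0 ∨ c ≠ 0 → ‖b * π‖ ≠ ‖c * π ^ 2‖ := by
    intro h0 he
    rw [norm_mul, norm_mul, norm_pow] at he
    have he' : ‖b‖ = ‖c‖ * ‖π‖ := by
      have : ‖b‖ * ‖π‖ = (‖c‖ * ‖π‖) * ‖π‖ := by rw [he]; ring
      exact mul_right_cancel₀ hp0 this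
    by_cases hc0 : c = 0
    · rw [hc0, norm_zero, zero_mul, norm_eq_zero] at he'
      rcases h0 with h0 | h0
      · exact h0 he'
      · exact h0 hc0
    · apply hn1 (b / c) (F.div_mem hb hc)
      rw [norm_div, he', mul_comm, mul_div_assoc, div_self (norm_ne_zero_iff.2 hc0), mul_one]
  -- choose the largest one
  rcases le_total ‖b * π‖ ‖a‖ with h1 | h1
  · rcases le_total ‖c * π ^ 2‖ ‖a‖ with h2 | h2
    · -- `a` is the largest
      have ha0 : a ≠ 0 := by
        intro h0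
        rw [h0, norm_zero] at h1 h2
        apply hx
        rw [hxe, h0, norm_le_zero_iff.1 h1, norm_le_zero_iff.1 h2]; ring
      refine ⟨0, by norm_num, a, ha, ?_⟩
      have := dom_aux a (b * π) (c * π ^ 2) (lt_of_le_of_ne h1 (hab (Or.inl ha0)).symm)
        (lt_of_le_of_ne h2 (hac (Or.inl ha0)).symm)
      have e1 : x - a * π ^ 0 = b * π + c * π ^ 2 := by rw [hxe]; ring
      have e2 : x = a + (b * π + c * π ^ 2) := by rw [hxe]; ring
      rw [e1]; rw [← e2] at this; exact this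
    · -- `c π²` is the largest
      have hc0 : c ≠ 0 := by
        intro h0
        rw [h0, zero_mul, norm_zero] at h2
        have ha0 := norm_le_zero_iff.1 h2
        rw [ha0, norm_zero] at h1
        apply hx
        rw [hxe, h0, ha0, norm_le_zero_iff.1 h1]; ring
      refine ⟨2, by norm_num, c, hc, ?_⟩
      have h4 : ‖a‖ < ‖c * π ^ 2‖ := lt_of_le_of_ne h2 (hac (Or.inr hc0))
      have := dom_aux (c * π ^ 2) a (b * π) h4 (h1.trans_lt h4)
      have e1 : x - c * π ^ 2 = a + b * π := by rw [hxe]; ring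
      have e2 : x = c * π ^ 2 + (a + b * π) := by rw [hxe]; ring
      rw [e1]; rw [← e2] at this; exact this
  · rcases le_total ‖c * π ^ 2‖ ‖b * π‖ with h2 | h2
    · -- `b π` is the largest
      have hb0 : b ≠ 0 := by
        intro h0
        rw [h0, zero_mul, norm_zero] at h1 h2
        apply hx
        rw [hxe, h0, norm_le_zero_iff.1 h1, norm_le_zero_iff.1 h2]; ring
      refine ⟨1, by norm_num, b, hb, ?_⟩
      have := dom_aux (b * π) a (c * π ^ 2) (lt_of_le_of_ne h1 (hab (Or.inr hb0)))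
        (lt_of_le_of_ne h2 (hbc (Or.inl hb0)).symm)
      have e1 : x - b * π ^ 1 = a + c * π ^ 2 := by rw [hxe]; ring
      have e2 : x = b * π + (a + c * π ^ 2) := by rw [hxe]; ring
      rw [e1]; rw [← e2] at this; exact this
    · -- `c π²` is the largest
      have hc0 : c ≠ 0 := by
        intro h0
        rw [h0, zero_mul, norm_zero] at h2
        have hb0 := norm_le_zero_iff.1 h2
        rw [hb0, norm_zero] at h1
        apply hx
        rw [hxe, h0, hb0, norm_le_zero_iff.1 h1]; ring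
      refine ⟨2, by norm_num, c, hc, ?_⟩
      have h4 : ‖b * π‖ < ‖c * π ^ 2‖ := lt_of_le_of_ne h2 (hbc (Or.inr hc0))
      have := dom_aux (c * π ^ 2) a (b * π) (h1.trans_lt h4) h4
      have e1 : x - c * π ^ 2 = a + b * π := by rw [hxe]; ring
      have e2 : x = c * π ^ 2 + (a + b * π) := by rw [hxe]; ring
      rw [e1]; rw [← e2] at this; exact this

end F8
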