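import Pool.Agent.H15.F8.Targets

/-!
# Project MP_f8d35d_nt: module L8 (Kummer theory for one cube root)
-/

namespace F8

theorem cube_one {L : Type*} [Field L] (z u : L) (hz : z ^ 2 + z + 1 = 0) (hu : u ^ 3 = 1) :
    u = 1 ∨ u = z ∨ u = z ^ 2 := by
  have h : (u - 1) * ((u - z) * (u - z ^ 2)) = 0 := by
    linear_combination hu + (-u ^ 2 + u * z - z + 1) * hz
  rcases mul_eq_zero.1 h with h | h
  · left; linear_combination h
  · rcases mul_eq_zero.1 h with h | h
    · right; left; linear_combination h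
    · right; right; linear_combination h

theorem kumStmt : KumStmt := by
  intro k L _ _ _ _ _ F w θ x hw hw1 hθ hθ3 hx3 hfix
  by_cases hx0 : x = 0
  · exact ⟨0, by norm_num, 0, F.zero_mem, by rw [hx0]; ring⟩
  by_cases hθF : θ ∈ F
  · refine ⟨0, by norm_num, x, ?_, by ring⟩
    rw [mem_iff_fixed]
    intro g hg
    exact hfix g hg (hg θ hθF)
  rw [mem_iff_fixed] at hθF
  push Not at hθF
  obtain ⟨g, hg, hgθ⟩ := hθF
  -- `g θ = z θ`
  obtain ⟨z, hz⟩ : ∃ z, g θ = z * θ := ⟨g θ / θ, by rw [div_mul_cancel₀ _ hθ]⟩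
  have hz3 : z ^ 3 = 1 := by
    have h1 : g (θ ^ 3) = θ ^ 3 := hg _ hθ3
    rw [map_pow, hz, mul_pow] at h1
    exact mul_right_cancel₀ (pow_ne_zero 3 hθ) (by rw [h1, one_mul])
  have hz1 : z ≠ 1 := by
    intro h; rw [h, one_mul] at hz; exact hgθ hz
  have hzF : z ∈ F := by
    rcases cube_one w z hw1 hz3 with h | h | h
    · exact absurd h hz1
    · rw [h]; exact hw
    · rw [h, pow_two]; exact F.mul_mem hw hw
  have hzz : z ^ 2 + z + 1 = 0 := by
    have : (z - 1) * (z ^ 2 + z + 1) = 0 := by linear_combination hz3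
    rcases mul_eq_zero.1 this with h | h
    · exact absurd (by linear_combination h) hz1
    · exact h
  have hgz : g z = z := hg z hzF
  -- `g x = v x`
  obtain ⟨v, hv⟩ : ∃ v, g x = v * x := ⟨g x / x, by rw [div_mul_cancel₀ _ hx0]⟩
  have hv3 : v ^ 3 = 1 := by
    have h1 : g (x ^ 3) = x ^ 3 := hg _ hx3
    rw [map_pow, hv, mul_pow] at h1
    exact mul_right_cancel₀ (pow_ne_zero 3 hx0) (by rw [h1, one_mul])
  obtain ⟨j, hj, hvj⟩ : ∃ j : ℕ, j < 3 ∧ v = z ^ j := by
    rcases cube_one z v hzz hv3 with h | h | h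
    · exact ⟨0, by norm_num, by rw [h, pow_zero]⟩
    · exact ⟨1, by norm_num, by rw [h, pow_one]⟩
    · exact ⟨2, by norm_num, h⟩
  have hθj : θ ^ j ≠ 0 := pow_ne_zero j hθ
  have hgy : g (x / θ ^ j) = x / θ ^ j := by
    rw [map_div₀, map_pow, hz, hv, hvj, mul_pow, mul_div_mul_left]
    exact pow_ne_zero j (by intro h; rw [h] at hz3; norm_num at hz3)
  have key : ∀ h g' : L ≃ₐ[k] L, (∀ a ∈ F, h a = a) → (∀ a ∈ F, g' a = a) → h θ = g' θ →
      h (x / θ ^ j) = g' (x / θ ^ j) := by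
    intro h g' hh hg' he
    have h1 : ∀ y, g'⁻¹ (g' y) = y := fun y => by
      rw [← AlgEquiv.mul_apply, inv_mul_cancel, AlgEquiv.one_apply]
    have h2 : ∀ y, g' (g'⁻¹ y) = y := fun y => by
      rw [← AlgEquiv.mul_apply, mul_inv_cancel, AlgEquiv.one_apply]
    have h3 : (g'⁻¹ * h) x = x := by
      refine hfix _ ?_ ?_
      · intro a ha
        rw [AlgEquiv.mul_apply, hh a ha]
        have := h1 a
        rw [hg' a ha] at this
        exact this
      · rw [AlgEquiv.mul_apply, he, h1]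
    have h4 : h x = g' x := by
      have := congrArg g' h3
      rw [AlgEquiv.mul_apply, h2] at this
      exact this
    rw [map_div₀, map_div₀, map_pow, map_pow, h4, he]
  refine ⟨j, hj, x / θ ^ j, ?_, by rw [div_mul_cancel₀ _ hθj]⟩
  rw [mem_iff_fixed]
  intro h hh
  obtain ⟨u, hu⟩ : ∃ u, h θ = u * θ := ⟨h θ / θ, by rw [div_mul_cancel₀ _ hθ]⟩
  have hu3 : u ^ 3 = 1 := by
    have h1 : h (θ ^ 3) = θ ^ 3 := hh _ hθ3
    rw [map_pow, hu, mul_pow] at h1
    exact mul_right_cancel₀ (pow_ne_zero 3 hθ) (by rw [h1, one_mul])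
  rcases cube_one z u hzz hu3 with h1 | h1 | h1
  · have := key h 1 hh (fun a _ => rfl) (by rw [hu, h1, one_mul, AlgEquiv.one_apply])
    rw [this, AlgEquiv.one_apply]
  · have := key h g hh hg (by rw [hu, h1, hz])
    rw [this, hgy]
  · have := key h (g * g) hh (fun a ha => by rw [AlgEquiv.mul_apply, hg a ha, hg a ha])
      (by rw [hu, h1, AlgEquiv.mul_apply, hz, map_mul, hgz, hz]; ring)
    rw [this, AlgEquiv.mul_apply, hgy, hgy]

end F8
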